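import Mathlib

/-!
# MP_53071c: isomorphic keyword substitution graphs with unrelated keywords

For `a = 10000` and `b = 01000` the graphs `G_n^(a)` and `G_n^(b)` are isomorphic for every `n`,
although `b` is not obtained from `a` by negation, seminegation and reversal.

Idea of the proof. Replace a word `u` by its differences `d_0 = u_0`, `d_t = u_{t-1} + u_t`. The
substitution at position `i` is possible if `d_{i+1} d_{i+2} d_{i+3} d_{i+4}` equals `1000`
(respectively `1100`), and it toggles `d_i` and `d_{i+5}`. We change the pattern from `1000` to `1100`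
for one position `κ` at a time, from right to left; each change does not alter the graph up to
isomorphism: the isomorphism toggles `d_{κ+2}` in those words in whose component the substitution at
`κ` is possible somewhere, in one of the two versions.
-/

set_option autoImplicit false

namespace Pool.Agent.Results.MP_53071c_co.KeywordGraphs

/-- Binary words of length `n`. -/
abbrev Word (n : ℕ) := Fin n → Bool

/-- The map `φ_i^{(a)}`: if the block of `u` in the positions `i, ..., i + m` (counted from `0`) is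
`a` or the negation of `a`, negate the letters of the block; otherwise do nothing. -/
def phi {m n : ℕ} (a : Word (m + 1)) (i : Fin (n - m)) (u : Word n) : Word n :=
  if (∀ j : Fin (m + 1), u ⟨i.val + j.val, by omega⟩ = a j) ∨
      (∀ j : Fin (m + 1), u ⟨i.val + j.val, by omega⟩ = !(a j)) then
    fun t => if i.val ≤ t.val ∧ t.val ≤ i.val + m then !(u t) else u t
  else u

theorem phi_phi {m n : ℕ} (a : Word (m + 1)) (i : Fin (n - m)) (u : Word n) :
    phi a i (phi a i u) = u := by
  by_cases h : (∀ j : Fin (m + 1), u ⟨i.val + j.val, by omega⟩ = a j) ∨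
      (∀ j : Fin (m + 1), u ⟨i.val + j.val, by omega⟩ = !(a j))
  · have e : phi a i u = fun t => if i.val ≤ t.val ∧ t.val ≤ i.val + m then !(u t) else u t := by
      unfold phi; rw [if_pos h]
    rw [e]
    unfold phi
    rw [if_pos]
    · funext t
      by_cases ht : i.val ≤ t.val ∧ t.val ≤ i.val + m
      · simp [ht]
      · simp [ht]
    · rcases h with h | h
      · right
        intro j
        have : i.val ≤ i.val + j.val ∧ i.val + j.val ≤ i.val + m := by omega
        simp only [this, and_self, if_true, h j]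
      · left
        intro j
        have : i.val ≤ i.val + j.val ∧ i.val + j.val ≤ i.val + m := by omega
        simp only [this, and_self, if_true, h j, Bool.not_not]
  · have e : phi a i u = u := by unfold phi; rw [if_neg h]
    rw [e, e]

/-- The graph `G_n^{(a)}`: distinct words `u`, `v` are adjacent if and only if `v = φ_i^{(a)}(u)` for
some `i`. -/
def G {m : ℕ} (n : ℕ) (a : Word (m + 1)) : SimpleGraph (Word n) where
  Adj u v := u ≠ v ∧ ∃ i : Fin (n - m), v = phi a i u
  symm := ⟨fun u v ⟨h, i, hi⟩ => ⟨h.symm, i, by rw [hi, phi_phi]⟩⟩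
  loopless := ⟨fun u h => h.1 rfl⟩

/-- Negation. -/
def neg {n : ℕ} (a : Word n) : Word n := fun j => !(a j)

/-- Seminegation: flip the letters in even positions (counted from `1`). -/
def semineg {n : ℕ} (a : Word n) : Word n := fun j => if (j.val + 1) % 2 = 0 then !(a j) else a j

/-- Reversal. -/
def rev {n : ℕ} (a : Word n) : Word n := fun j => a j.rev

/-- `b` is obtained from `a` by a finite composition of negation, seminegation and reversal. -/
def Related {n : ℕ} (a b : Word n) : Prop :=
  Relation.ReflTransGen (fun x y => y = neg x ∨ y = semineg x ∨ y = rev x) a b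

/-! ### The dynamics on difference words -/

section
variable {n : ℕ}

/-- The letter of `d` in position `t` (`false` outside). -/
def bit (d : Word n) (t : ℕ) : Bool := if h : t < n then d ⟨t, h⟩ else false

/-- The substitution at `i` is possible: `d_{i+1} ... d_{i+4} = 1 μ_i 0 0`. -/
def Act (μ : ℕ → Bool) (i : ℕ) (d : Word n) : Prop :=
  i + 5 ≤ n ∧ bit d (i + 1) = true ∧ bit d (i + 2) = μ i ∧ bit d (i + 3) = false ∧
    bit d (i + 4) = false

/-- Toggle the letters `i` and `i + 5`. -/
def tog (i : ℕ) (d : Word n) : Word n := fun t => if t.val = i ∨ t.val = i + 5 then !(d t) else d t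

open Classical in
/-- The substitution at `i` for difference words. -/
noncomputable def step (μ : ℕ → Bool) (i : ℕ) (d : Word n) : Word n := if Act μ i d then tog i d else d

theorem bit_tog_of_ne {i t : ℕ} (d : Word n) (h1 : t ≠ i) (h2 : t ≠ i + 5) :
    bit (tog i d) t = bit d t := by
  unfold bit tog
  split_ifs <;> simp_all

theorem bit_tog {i t : ℕ} (d : Word n) (h1 : t = i ∨ t = i + 5) (ht : t < n) :
    bit (tog i d) t = !(bit d t) := by
  unfold bit tog
  simp [ht, h1]

/-- Invariant of a component: `T` is a set of positions at which a substitution was possible at some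
time. -/
def Inv (μ : ℕ → Bool) (T : Set ℕ) (d : Word n) : Prop :=
  (∀ i ∈ T, bit d (i + 2) = μ i ∧ bit d (i + 3) = false) ∧
  (∀ i ∈ T, bit d (i + 1) = true ∨ ∃ j ∈ T, j + 4 = i) ∧
  (∀ i ∈ T, bit d (i + 4) = false ∨ i + 4 ∈ T) ∧
  (∀ i ∈ T, i + 4 ∈ T → ¬ (bit d (i + 4) = true ∧ bit d (i + 5) = false))

theorem Inv.separated {μ : ℕ → Bool} (hμ : ∀ i j, i ≤ j → μ i = true → μ j = true) {T : Set ℕ}
    {d : Word n} (h : Inv μ T d) {i j : ℕ} (hi : i ∈ T) (hj : Act μ j d) :
    j ≠ i + 1 ∧ j ≠ i + 2 ∧ j ≠ i + 3 ∧ i ≠ j + 1 ∧ i ≠ j + 2 ∧ i ≠ j + 3 := by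
  obtain ⟨c1, c2, c3, c4⟩ := h
  obtain ⟨-, a1, a2, a3, a4⟩ := hj
  refine ⟨?_, ?_, ?_, ?_, ?_, ?_⟩
  · rintro rfl
    have h1 := c1 i hi
    have h2 : μ i = true := by rw [← h1.1, ← a1]
    have h3 := hμ i (i + 1) (by omega) h2
    rw [← a2, show i + 1 + 2 = i + 3 by omega, h1.2] at h3
    exact absurd h3 (by decide)
  · rintro rfl
    have h1 := c1 i hi
    rw [show i + 2 + 1 = i + 3 by omega, h1.2] at a1
    exact absurd a1 (by decide)
  · rintro rfl
    rw [show i + 3 + 1 = i + 4 by omega] at a1
    have h1 : i + 4 ∈ T := by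
      rcases c3 i hi with h | h
      · rw [h] at a1; exact absurd a1 (by decide)
      · exact h
    have h2 := (c1 (i + 4) h1).1
    rw [show i + 3 + 3 = i + 4 + 2 by omega, h2] at a3
    have h3 : μ (i + 3) = false := by
      by_contra h4
      have h5 := hμ (i + 3) (i + 4) (by omega) (by simpa using h4)
      rw [a3] at h5; exact absurd h5 (by decide)
    exact c4 i hi h1 ⟨a1, by rw [show i + 5 = i + 3 + 2 by omega, a2, h3]⟩
  · rintro rfl
    have h1 := (c1 (j + 1) hi).1
    rw [show j + 1 + 2 = j + 3 by omega, a3] at h1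
    have h3 : μ j = false := by
      by_contra h4
      have h5 := hμ j (j + 1) (by omega) (by simpa using h4)
      rw [← h1] at h5; exact absurd h5 (by decide)
    rw [h3] at a2
    rcases c2 (j + 1) hi with h | ⟨k, hk, hk'⟩
    · rw [show j + 1 + 1 = j + 2 by omega, a2] at h; exact absurd h (by decide)
    · have h6 : k + 4 ∈ T := by rw [hk']; exact hi
      exact c4 k hk h6 ⟨by rw [hk']; exact a1, by rw [show k + 5 = j + 2 by omega]; exact a2⟩
  · rintro rfl
    rcases c2 (j + 2) hi with h | ⟨k, hk, hk'⟩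
    · rw [show j + 2 + 1 = j + 3 by omega, a3] at h; exact absurd h (by decide)
    · have h1 := (c1 k hk).2
      rw [show k + 3 = j + 1 by omega, a1] at h1
      exact absurd h1 (by decide)
  · rintro rfl
    rcases c2 (j + 3) hi with h | ⟨k, hk, hk'⟩
    · rw [show j + 3 + 1 = j + 4 by omega, a4] at h; exact absurd h (by decide)
    · have h1 := c1 k hk
      rw [show k + 2 = j + 1 by omega, show k + 3 = j + 2 by omega, a1] at h1
      have h3 := hμ k j (by omega) h1.1.symm
      rw [← a2, h1.2] at h3
      exact absurd h3 (by decide)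

theorem Inv.tog {μ : ℕ → Bool} (hμ : ∀ i j, i ≤ j → μ i = true → μ j = true) {T : Set ℕ}
    {d : Word n} (h : Inv μ T d) {j : ℕ} (hj : Act μ j d) : Inv μ (insert j T) (tog j d) := by
  have hsep := fun i (hi : i ∈ T) => h.separated hμ hi hj
  obtain ⟨c1, c2, c3, c4⟩ := h
  obtain ⟨hn, a1, a2, a3, a4⟩ := hj
  have b1 : bit (KeywordGraphs.tog j d) (j + 1) = true := by
    rw [bit_tog_of_ne d (by omega) (by omega)]; exact a1
  have b4 : bit (KeywordGraphs.tog j d) (j + 4) = false := by
    rw [bit_tog_of_ne d (by omega) (by omega)]; exact a4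
  refine ⟨?_, ?_, ?_, ?_⟩
  · rintro i (rfl | hi)
    · rw [bit_tog_of_ne d (by omega) (by omega), bit_tog_of_ne d (by omega) (by omega)]
      exact ⟨a2, a3⟩
    · have h1 := hsep i hi
      rw [bit_tog_of_ne d (by omega) (by omega), bit_tog_of_ne d (by omega) (by omega)]
      exact c1 i hi
  · rintro i (rfl | hi)
    · left; exact b1
    · have h1 := hsep i hi
      by_cases h2 : j + 4 = i
      · right; exact ⟨j, Or.inl rfl, h2⟩
      · rw [bit_tog_of_ne d (by omega) (by omega)]
        rcases c2 i hi with h | ⟨k, hk, hk'⟩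
        · left; exact h
        · right; exact ⟨k, Or.inr hk, hk'⟩
  · rintro i (rfl | hi)
    · left; exact b4
    · have h1 := hsep i hi
      by_cases h2 : i + 4 = j
      · right; left; exact h2
      · rw [bit_tog_of_ne d (by omega) (by omega)]
        rcases c3 i hi with h | h
        · left; exact h
        · right; right; exact h
  · rintro i hi hi4 ⟨h5, h6⟩
    rcases hi with rfl | hi
    · rw [b4] at h5; exact absurd h5 (by decide)
    · rcases hi4 with h7 | hi4
      · rw [show i + 5 = j + 1 by omega, b1] at h6; exact absurd h6 (by decide)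
      · have h1 := hsep i hi
        have h2 := hsep (i + 4) hi4
        by_cases h3 : j = i
        · rw [← h3, b4] at h5; exact absurd h5 (by decide)
        · by_cases h8 : j = i + 4
          · rw [show i + 5 = j + 1 by omega, b1] at h6; exact absurd h6 (by decide)
          · rw [bit_tog_of_ne d (by omega) (by omega)] at h5 h6
            exact c4 i hi hi4 ⟨h5, h6⟩

/-- The position `κ` belongs to the invariant of the word. -/
def Good (μ : ℕ → Bool) (κ : ℕ) (d : Word n) : Prop := ∃ T : Set ℕ, κ ∈ T ∧ Inv μ T d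

theorem good_of_act {μ : ℕ → Bool} {κ : ℕ} {d : Word n} (h : Act μ κ d) : Good μ κ d := by
  obtain ⟨-, a1, a2, a3, a4⟩ := h
  refine ⟨{κ}, rfl, ?_, ?_, ?_, ?_⟩
  · rintro i rfl; exact ⟨a2, a3⟩
  · rintro i rfl; exact Or.inl a1
  · rintro i rfl; exact Or.inl a4
  · rintro i rfl h5
    simp at h5

theorem good_step {μ : ℕ → Bool} (hμ : ∀ i j, i ≤ j → μ i = true → μ j = true) {κ : ℕ} {d : Word n}
    (h : Good μ κ d) (i : ℕ) : Good μ κ (step μ i d) := by
  unfold step
  split_ifs with h1
  · obtain ⟨T, hT, hinv⟩ := h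
    exact ⟨insert i T, Or.inr hT, hinv.tog hμ h1⟩
  · exact h

theorem Good.bits {μ : ℕ → Bool} {κ : ℕ} {d : Word n} (h : Good μ κ d) :
    bit d (κ + 2) = μ κ ∧ bit d (κ + 3) = false ∧
      (bit d (κ + 1) = false → bit d κ = false ∧ ∀ t, t + 1 = κ → bit d t = false) := by
  obtain ⟨T, hT, c1, c2, c3, c4⟩ := h
  refine ⟨(c1 κ hT).1, (c1 κ hT).2, ?_⟩
  intro h1
  rcases c2 κ hT with h | ⟨k, hk, hk'⟩
  · rw [h1] at h; exact absurd h (by decide)
  · constructor
    · by_contra h2
      refine c4 k hk (by rw [hk']; exact hT) ⟨?_, ?_⟩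
      · rw [hk']; simpa using h2
      · rw [show k + 5 = κ + 1 by omega]; exact h1
    · intro t ht
      rw [show t = k + 3 by omega]
      exact (c1 k hk).2

/-! ### Changing the pattern at one position -/

/-- The patterns `1 μ_i 0 0` with `μ_i = 1` if and only if `k ≤ i`. -/
def lev (k i : ℕ) : Bool := decide (k ≤ i)

theorem lev_mono (k : ℕ) : ∀ i j, i ≤ j → lev k i = true → lev k j = true := by
  intro i j h1 h2
  simp only [lev, decide_eq_true_eq] at h2 ⊢
  omega

theorem act_tog {μ : ℕ → Bool} {i : ℕ} {d : Word n} : Act μ i (tog i d) ↔ Act μ i d := by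
  unfold Act
  rw [bit_tog_of_ne d (by omega) (by omega), bit_tog_of_ne d (by omega) (by omega),
    bit_tog_of_ne d (by omega) (by omega), bit_tog_of_ne d (by omega) (by omega)]

theorem tog_tog (i : ℕ) (d : Word n) : tog i (tog i d) = d := by
  funext t
  unfold tog
  split_ifs <;> simp

theorem step_step (μ : ℕ → Bool) (i : ℕ) (d : Word n) : step μ i (step μ i d) = d := by
  unfold step
  by_cases h : Act μ i d
  · rw [if_pos h, if_pos (act_tog.2 h), tog_tog]
  · rw [if_neg h, if_neg h]

theorem act_lev {κ i : ℕ} (h : i ≠ κ) {d : Word n} : Act (lev (κ + 1)) i d ↔ Act (lev κ) i d := by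
  unfold Act
  have : lev (κ + 1) i = lev κ i := by
    unfold lev
    rw [decide_eq_decide]
    omega
  rw [this]

theorem step_lev {κ i : ℕ} (h : i ≠ κ) (d : Word n) : step (lev (κ + 1)) i d = step (lev κ) i d := by
  unfold step
  by_cases h1 : Act (lev κ) i d
  · rw [if_pos h1, if_pos ((act_lev h).2 h1)]
  · rw [if_neg h1, if_neg fun h2 => h1 ((act_lev h).1 h2)]

/-- Toggle the letter in position `κ + 2`. -/
def F (κ : ℕ) (d : Word n) : Word n := fun t => if t.val = κ + 2 then !(d t) else d t

theorem F_F (κ : ℕ) (d : Word n) : F κ (F κ d) = d := by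
  funext t
  unfold F
  split_ifs <;> simp

theorem F_tog (κ i : ℕ) (d : Word n) : F κ (tog i d) = tog i (F κ d) := by
  funext t
  change (if t.val = κ + 2 then !(if t.val = i ∨ t.val = i + 5 then !(d t) else d t)
      else (if t.val = i ∨ t.val = i + 5 then !(d t) else d t)) =
    (if t.val = i ∨ t.val = i + 5 then !(if t.val = κ + 2 then !(d t) else d t)
      else (if t.val = κ + 2 then !(d t) else d t))
  by_cases h1 : t.val = κ + 2
  · by_cases h2 : t.val = i ∨ t.val = i + 5
    · rw [if_pos h1, if_pos h2, if_pos h2, if_pos h1]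
    · rw [if_pos h1, if_neg h2, if_neg h2, if_pos h1]
  · by_cases h2 : t.val = i ∨ t.val = i + 5
    · rw [if_neg h1, if_pos h2, if_pos h2, if_neg h1]
    · rw [if_neg h1, if_neg h2, if_neg h2, if_neg h1]

theorem bit_F_of_ne {κ t : ℕ} (d : Word n) (h : t ≠ κ + 2) : bit (F κ d) t = bit d t := by
  unfold bit F
  split_ifs <;> simp_all

theorem bit_F {κ : ℕ} (d : Word n) (h : κ + 2 < n) : bit (F κ d) (κ + 2) = !(bit d (κ + 2)) := by
  unfold bit F
  simp [h]

/-- At `κ` the map `F` exchanges the two patterns. -/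
theorem act_F_self {κ : ℕ} {d : Word n} : Act (lev κ) κ (F κ d) ↔ Act (lev (κ + 1)) κ d := by
  unfold Act
  have e1 : lev κ κ = true := by simp [lev]
  have e2 : lev (κ + 1) κ = false := by simp [lev]
  rw [e1, e2, bit_F_of_ne d (show κ + 1 ≠ κ + 2 by omega),
    bit_F_of_ne d (show κ + 3 ≠ κ + 2 by omega), bit_F_of_ne d (show κ + 4 ≠ κ + 2 by omega)]
  by_cases h : κ + 5 ≤ n
  · rw [bit_F d (by omega)]
    simp
  · simp [h]

theorem act_F_self' {κ : ℕ} {d : Word n} : Act (lev (κ + 1)) κ (F κ d) ↔ Act (lev κ) κ d := by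
  have := act_F_self (κ := κ) (d := F κ d)
  rw [F_F] at this
  exact this.symm

/-- The property of words that guarantees that `F` respects the other substitutions. -/
def Nice (κ : ℕ) (d : Word n) : Prop :=
  bit d (κ + 3) = false ∧
    (bit d (κ + 1) = false → bit d κ = false ∧ ∀ t, t + 1 = κ → bit d t = false)

theorem act_F {κ i : ℕ} (hi : i ≠ κ) {d : Word n} (h : Nice κ d) :
    Act (lev κ) i (F κ d) ↔ Act (lev κ) i d := by
  obtain ⟨h1, h2⟩ := h
  by_cases c1 : i = κ + 1
  · subst c1
    have e : lev κ (κ + 1) = true := by simp [lev]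
    unfold Act
    rw [e, show κ + 1 + 2 = κ + 3 by omega, bit_F_of_ne d (by omega : κ + 3 ≠ κ + 2), h1]
    simp
  · by_cases c2 : i + 1 = κ
    · have e : lev κ i = false := by simp [lev]; omega
      unfold Act
      rw [e, show i + 1 = κ by omega, show i + 2 = κ + 1 by omega, bit_F_of_ne d (by omega),
        bit_F_of_ne d (by omega)]
      constructor
      · rintro ⟨-, h3, h4, -⟩
        rw [(h2 h4).1] at h3
        exact absurd h3 (by decide)
      · rintro ⟨-, h3, h4, -⟩
        rw [(h2 h4).1] at h3
        exact absurd h3 (by decide)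
    · by_cases c3 : i + 2 = κ
      · unfold Act
        rw [show i + 3 = κ + 1 by omega, bit_F_of_ne d (by omega : i + 1 ≠ κ + 2),
          bit_F_of_ne d (by omega : κ + 1 ≠ κ + 2)]
        constructor
        · rintro ⟨-, h3, -, h5, -⟩
          rw [(h2 h5).2 (i + 1) (by omega)] at h3
          exact absurd h3 (by decide)
        · rintro ⟨-, h3, -, h5, -⟩
          rw [(h2 h5).2 (i + 1) (by omega)] at h3
          exact absurd h3 (by decide)
      · unfold Act
        rw [bit_F_of_ne d (by omega), bit_F_of_ne d (by omega), bit_F_of_ne d (by omega),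
          bit_F_of_ne d (by omega)]

/-- Reachability without the substitution at `κ`. -/
def Conn (κ : ℕ) (x y : Word n) : Prop :=
  Relation.ReflTransGen (fun a b => ∃ i, i ≠ κ ∧ b = step (lev κ) i a) x y

theorem Conn.symm {κ : ℕ} {x y : Word n} (h : Conn κ x y) : Conn κ y x := by
  induction h with
  | refl => exact Relation.ReflTransGen.refl
  | tail _ h2 ih =>
    obtain ⟨i, hi, rfl⟩ := h2
    exact Relation.ReflTransGen.head ⟨i, hi, (step_step _ _ _).symm⟩ ih

theorem conn_step {κ i : ℕ} (hi : i ≠ κ) (x : Word n) : Conn κ (step (lev κ) i x) x :=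
  Conn.symm (Relation.ReflTransGen.single ⟨i, hi, rfl⟩)

/-- The words in whose component (without `κ`) the pattern `1000` appears at `κ`. -/
def R (κ : ℕ) (x : Word n) : Prop := ∃ y, Conn κ x y ∧ Act (lev (κ + 1)) κ y

/-- The words in whose component (without `κ`) the pattern `1100` appears at `κ`. -/
def R' (κ : ℕ) (x : Word n) : Prop := ∃ y, Conn κ x y ∧ Act (lev κ) κ y

theorem R_step {κ i : ℕ} (hi : i ≠ κ) (x : Word n) : R κ (step (lev κ) i x) ↔ R κ x := by
  constructor
  · rintro ⟨y, h1, h2⟩
    exact ⟨y, (conn_step hi x).symm.trans h1, h2⟩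
  · rintro ⟨y, h1, h2⟩
    exact ⟨y, (conn_step hi x).trans h1, h2⟩

theorem R'_step {κ i : ℕ} (hi : i ≠ κ) (x : Word n) : R' κ (step (lev κ) i x) ↔ R' κ x := by
  constructor
  · rintro ⟨y, h1, h2⟩
    exact ⟨y, (conn_step hi x).symm.trans h1, h2⟩
  · rintro ⟨y, h1, h2⟩
    exact ⟨y, (conn_step hi x).trans h1, h2⟩

theorem R.nice {κ : ℕ} {x : Word n} (h : R κ x) : Nice κ x := by
  obtain ⟨y, h1, h2⟩ := h
  have h3 : Good (lev (κ + 1)) κ x := by
    have h4 := h1.symm
    induction h4 with
    | refl => exact good_of_act h2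
    | tail _ h5 ih =>
      obtain ⟨i, hi, rfl⟩ := h5
      rw [← step_lev hi]
      exact good_step (lev_mono _) (ih (Conn.symm (by assumption))) i
  exact ⟨h3.bits.2.1, h3.bits.2.2⟩

theorem R'.nice {κ : ℕ} {x : Word n} (h : R' κ x) : Nice κ x := by
  obtain ⟨y, h1, h2⟩ := h
  have h3 : Good (lev κ) κ x := by
    have h4 := h1.symm
    induction h4 with
    | refl => exact good_of_act h2
    | tail _ h5 ih =>
      obtain ⟨i, hi, rfl⟩ := h5
      exact good_step (lev_mono _) (ih (Conn.symm (by assumption))) i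
  exact ⟨h3.bits.2.1, h3.bits.2.2⟩

theorem F_step {κ i : ℕ} (hi : i ≠ κ) {x : Word n} (h : Nice κ x) :
    F κ (step (lev κ) i x) = step (lev κ) i (F κ x) := by
  unfold step
  by_cases h1 : Act (lev κ) i x
  · rw [if_pos h1, if_pos ((act_F hi h).2 h1), F_tog]
  · rw [if_neg h1, if_neg fun h2 => h1 ((act_F hi h).1 h2)]

theorem F_conn {κ : ℕ} {x y : Word n} (hx : R κ x ∨ R' κ x) (h : Conn κ x y) :
    Conn κ (F κ x) (F κ y) ∧ (R κ y ∨ R' κ y) := by
  induction h with
  | refl => exact ⟨Relation.ReflTransGen.refl, hx⟩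
  | tail _ h5 ih =>
    obtain ⟨i, hi, rfl⟩ := h5
    obtain ⟨h6, h7⟩ := ih
    have hn : Nice κ _ := h7.elim R.nice R'.nice
    refine ⟨Relation.ReflTransGen.tail h6 ⟨i, hi, F_step hi hn⟩, ?_⟩
    rcases h7 with h7 | h7
    · left; exact (R_step hi _).2 h7
    · right; exact (R'_step hi _).2 h7

theorem R_F {κ : ℕ} {x : Word n} (h : R κ x) : R' κ (F κ x) := by
  obtain ⟨y, h1, h2⟩ := h
  exact ⟨F κ y, (F_conn (Or.inl ⟨y, h1, h2⟩) h1).1, act_F_self.2 h2⟩

theorem R'_F {κ : ℕ} {x : Word n} (h : R' κ x) : R κ (F κ x) := by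
  obtain ⟨y, h1, h2⟩ := h
  exact ⟨F κ y, (F_conn (Or.inr ⟨y, h1, h2⟩) h1).1, act_F_self'.2 h2⟩

open Classical in
/-- The isomorphism between the two versions. -/
noncomputable def Psi (κ : ℕ) (x : Word n) : Word n := if R κ x ∨ R' κ x then F κ x else x

theorem Psi_Psi (κ : ℕ) (x : Word n) : Psi κ (Psi κ x) = x := by
  by_cases h : R κ x ∨ R' κ x
  · have e : Psi κ x = F κ x := by unfold Psi; rw [if_pos h]
    have h2 : R κ (F κ x) ∨ R' κ (F κ x) := by
      rcases h with h | h
      · right; exact R_F h
      · left; exact R'_F h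
    rw [e]
    unfold Psi
    rw [if_pos h2, F_F]
  · have e : Psi κ x = x := by unfold Psi; rw [if_neg h]
    rw [e, e]

theorem Psi_step (κ i : ℕ) (x : Word n) :
    Psi κ (step (lev (κ + 1)) i x) = step (lev κ) i (Psi κ x) := by
  by_cases hi : i = κ
  · subst hi
    by_cases h : R i x ∨ R' i x
    · have e : Psi i x = F i x := by unfold Psi; rw [if_pos h]
      rw [e]
      by_cases ha : Act (lev (i + 1)) i x
      · have e1 : step (lev (i + 1)) i x = tog i x := by unfold step; rw [if_pos ha]
        have e2 : step (lev i) i (F i x) = tog i (F i x) := by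
          unfold step; rw [if_pos (act_F_self.2 ha)]
        have h3 : R i (tog i x) := ⟨tog i x, Relation.ReflTransGen.refl, act_tog.2 ha⟩
        rw [e1, e2]
        unfold Psi
        rw [if_pos (Or.inl h3), F_tog]
      · have e1 : step (lev (i + 1)) i x = x := by unfold step; rw [if_neg ha]
        have e2 : step (lev i) i (F i x) = F i x := by
          unfold step; rw [if_neg fun h => ha (act_F_self.1 h)]
        rw [e1, e2, e]
    · have e : Psi i x = x := by unfold Psi; rw [if_neg h]
      have ha : ¬ Act (lev (i + 1)) i x := fun h' => h (Or.inl ⟨x, Relation.ReflTransGen.refl, h'⟩)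
      have hb : ¬ Act (lev i) i x := fun h' => h (Or.inr ⟨x, Relation.ReflTransGen.refl, h'⟩)
      have e1 : step (lev (i + 1)) i x = x := by unfold step; rw [if_neg ha]
      have e2 : step (lev i) i x = x := by unfold step; rw [if_neg hb]
      rw [e1, e, e2]
  · rw [step_lev hi]
    by_cases h : R κ x ∨ R' κ x
    · have e : Psi κ x = F κ x := by unfold Psi; rw [if_pos h]
      have h2 : R κ (step (lev κ) i x) ∨ R' κ (step (lev κ) i x) := by
        rw [R_step hi, R'_step hi]; exact h
      rw [e]
      unfold Psi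
      rw [if_pos h2]
      exact F_step hi (h.elim R.nice R'.nice)
    · have e : Psi κ x = x := by unfold Psi; rw [if_neg h]
      have h2 : ¬ (R κ (step (lev κ) i x) ∨ R' κ (step (lev κ) i x)) := by
        rw [R_step hi, R'_step hi]; exact h
      rw [e]
      unfold Psi
      rw [if_neg h2]

/-- All versions are isomorphic. -/
theorem exists_equiv (k : ℕ) : ∃ e : Word n ≃ Word n, ∀ i x,
    e (step (lev k) i x) = step (lev 0) i (e x) := by
  induction k with
  | zero => exact ⟨Equiv.refl _, fun i x => rfl⟩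
  | succ k ih =>
    obtain ⟨e, he⟩ := ih
    refine ⟨(Function.Involutive.toPerm (Psi k) (Psi_Psi k)).trans e, ?_⟩
    intro i x
    change e (Psi k (step (lev (k + 1)) i x)) = step (lev 0) i (e (Psi k x))
    rw [Psi_step, he]

/-! ### From words to difference words -/

/-- The difference word. -/
def delta (u : Word n) : Word n :=
  fun t => if t.val = 0 then u t else xor (u t) (u ⟨t.val - 1, by omega⟩)

theorem delta_injective : Function.Injective (delta : Word n → Word n) := by
  intro u v h
  have key : ∀ t (ht : t < n), u ⟨t, ht⟩ = v ⟨t, ht⟩ := by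
    intro t
    induction t with
    | zero =>
      intro ht
      have := congrFun h ⟨0, ht⟩
      simpa [delta] using this
    | succ t ih =>
      intro ht
      have h1 := congrFun h ⟨t + 1, ht⟩
      have h2 := ih (by omega)
      simp only [delta, Nat.add_eq_zero_iff, one_ne_zero, and_false, if_false,
        Nat.add_sub_cancel] at h1
      rw [h2] at h1
      simpa using h1
  funext t
  exact key t.val t.isLt

theorem bit_delta (u : Word n) {t : ℕ} (ht : t + 1 < n) :
    bit (delta u) (t + 1) = xor (u ⟨t + 1, ht⟩) (u ⟨t, by omega⟩) := by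
  unfold bit delta
  simp [ht]

theorem delta_flip (u : Word n) (i : ℕ) (hi : i + 5 ≤ n) :
    delta (fun t : Fin n => if i ≤ t.val ∧ t.val ≤ i + 4 then !(u t) else u t) =
      tog i (delta u) := by
  funext t
  unfold delta tog
  by_cases h0 : t.val = 0
  · simp only [h0, if_true]
    by_cases h1 : i = 0
    · simp [h1]
    · have : ¬ (i ≤ 0) := by omega
      have h2 : ¬ (0 = i) := fun h => h1 h.symm
      simp [this, h2]
  · simp only [h0, if_false]
    by_cases h1 : i ≤ t.val ∧ t.val ≤ i + 4
    · by_cases h2 : i ≤ t.val - 1 ∧ t.val - 1 ≤ i + 4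
      · have h3 : ¬ (t.val = i ∨ t.val = i + 5) := by omega
        simp only [h1, h2, h3, and_self, if_true, if_false]
        cases u t <;> cases u ⟨t.val - 1, by omega⟩ <;> rfl
      · have h3 : t.val = i ∨ t.val = i + 5 := by omega
        rw [if_pos h1, if_neg h2, if_pos h3]
        cases u t <;> cases u ⟨t.val - 1, by omega⟩ <;> rfl
    · by_cases h2 : i ≤ t.val - 1 ∧ t.val - 1 ≤ i + 4
      · have h3 : t.val = i ∨ t.val = i + 5 := by omega
        rw [if_neg h1, if_pos h2, if_pos h3]
        cases u t <;> cases u ⟨t.val - 1, by omega⟩ <;> rfl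
      · have h3 : ¬ (t.val = i ∨ t.val = i + 5) := by omega
        rw [if_neg h1, if_neg h2, if_neg h3]

/-- The keyword `10000`. -/
def kwA : Word (4 + 1) := ![true, false, false, false, false]

/-- The keyword `01000`. -/
def kwB : Word (4 + 1) := ![false, true, false, false, false]

theorem delta_phi (a : Word (4 + 1)) (μ : Bool) (i : Fin (n - 4)) (u : Word n)
    (h : ∀ x0 x1 x2 x3 x4 : Bool,
      ((x0 = a 0 ∧ x1 = a 1 ∧ x2 = a 2 ∧ x3 = a 3 ∧ x4 = a 4) ∨
        (x0 = !(a 0) ∧ x1 = !(a 1) ∧ x2 = !(a 2) ∧ x3 = !(a 3) ∧ x4 = !(a 4))) ↔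
      (xor x1 x0 = true ∧ xor x2 x1 = μ ∧ xor x3 x2 = false ∧ xor x4 x3 = false)) :
    delta (phi a i u) = step (fun _ => μ) i.val (delta u) := by
  have hi : i.val + 5 ≤ n := by omega
  have e1 := bit_delta u (t := i.val) (by omega)
  have e2 := bit_delta u (t := i.val + 1) (by omega)
  have e3 := bit_delta u (t := i.val + 2) (by omega)
  have e4 := bit_delta u (t := i.val + 3) (by omega)
  have hiff : ((∀ j : Fin (4 + 1), u ⟨i.val + j.val, by omega⟩ = a j) ∨
      (∀ j : Fin (4 + 1), u ⟨i.val + j.val, by omega⟩ = !(a j))) ↔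
      Act (fun _ => μ) i.val (delta u) := by
    have h1 := h (u ⟨i.val, by omega⟩) (u ⟨i.val + 1, by omega⟩) (u ⟨i.val + 2, by omega⟩)
      (u ⟨i.val + 3, by omega⟩) (u ⟨i.val + 4, by omega⟩)
    have h2 : Act (fun _ => μ) i.val (delta u) ↔
        (xor (u ⟨i.val + 1, by omega⟩) (u ⟨i.val, by omega⟩) = true ∧
        xor (u ⟨i.val + 2, by omega⟩) (u ⟨i.val + 1, by omega⟩) = μ ∧
        xor (u ⟨i.val + 3, by omega⟩) (u ⟨i.val + 2, by omega⟩) = false ∧
        xor (u ⟨i.val + 4, by omega⟩) (u ⟨i.val + 3, by omega⟩) = false) := by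
      unfold Act
      rw [show bit (delta u) (i.val + 1) = _ from e1, show bit (delta u) (i.val + 2) = _ from e2,
        show bit (delta u) (i.val + 3) = _ from e3, show bit (delta u) (i.val + 4) = _ from e4]
      exact ⟨fun h => h.2, fun h => ⟨hi, h⟩⟩
    rw [h2, ← h1]
    constructor
    · rintro (h3 | h3)
      · left; exact ⟨h3 0, h3 1, h3 2, h3 3, h3 4⟩
      · right; exact ⟨h3 0, h3 1, h3 2, h3 3, h3 4⟩
    · rintro (⟨g0, g1, g2, g3, g4⟩ | ⟨g0, g1, g2, g3, g4⟩)
      · left
        intro j
        fin_cases j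
        · exact g0
        · exact g1
        · exact g2
        · exact g3
        · exact g4
      · right
        intro j
        fin_cases j
        · exact g0
        · exact g1
        · exact g2
        · exact g3
        · exact g4
  unfold phi step
  by_cases h3 : Act (fun _ => μ) i.val (delta u)
  · rw [if_pos h3, if_pos (hiff.2 h3)]
    exact delta_flip u i.val hi
  · rw [if_neg h3, if_neg fun h4 => h3 (hiff.1 h4)]

theorem delta_phiA (i : Fin (n - 4)) (u : Word n) :
    delta (phi kwA i u) = step (fun _ => false) i.val (delta u) :=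
  delta_phi kwA false i u (by
    intro x0 x1 x2 x3 x4
    cases x0 <;> cases x1 <;> cases x2 <;> cases x3 <;> cases x4 <;> simp [kwA])

theorem delta_phiB (i : Fin (n - 4)) (u : Word n) :
    delta (phi kwB i u) = step (fun _ => true) i.val (delta u) :=
  delta_phi kwB true i u (by
    intro x0 x1 x2 x3 x4
    cases x0 <;> cases x1 <;> cases x2 <;> cases x3 <;> cases x4 <;> simp [kwB])

end

/-- The graphs of the two keywords are isomorphic for every `n`. -/
theorem iso (n : ℕ) : Nonempty (G n kwA ≃g G n kwB) := by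
  obtain ⟨e, he⟩ := exists_equiv (n := n) n
  have hA : ∀ (i : Fin (n - 4)) (x : Word n), step (lev n) i.val x = step (fun _ => false) i.val x := by
    intro i x
    have : Act (lev n) i.val x ↔ Act (fun _ => false) i.val x := by
      unfold Act
      have : lev n i.val = false := by simp [lev]; omega
      rw [this]
    unfold step
    by_cases h : Act (lev n) i.val x
    · rw [if_pos h, if_pos (this.1 h)]
    · rw [if_neg h, if_neg fun h' => h (this.2 h')]
  have hB : lev 0 = fun _ => true := by funext i; simp [lev]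
  let D : Word n ≃ Word n := Equiv.ofBijective delta
    (Finite.injective_iff_bijective.1 delta_injective)
  let E : Word n ≃ Word n := (D.trans e).trans D.symm
  have hE : ∀ (i : Fin (n - 4)) (u : Word n), E (phi kwA i u) = phi kwB i (E u) := by
    intro i u
    apply D.injective
    change D (D.symm (e (delta (phi kwA i u)))) = delta (phi kwB i (E u))
    rw [D.apply_symm_apply, delta_phiA, ← hA, he, delta_phiB, hB]
    congr 1
    change e (delta u) = D (D.symm (e (D u)))
    rw [D.apply_symm_apply]
    rfl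
  refine ⟨⟨E, ?_⟩⟩
  intro u v
  change (E u ≠ E v ∧ ∃ i : Fin (n - 4), E v = phi kwB i (E u)) ↔
    (u ≠ v ∧ ∃ i : Fin (n - 4), v = phi kwA i u)
  constructor
  · rintro ⟨h1, i, h2⟩
    refine ⟨fun h => h1 (by rw [h]), i, ?_⟩
    apply E.injective
    rw [h2, hE]
  · rintro ⟨h1, i, h2⟩
    refine ⟨fun h => h1 (E.injective h), i, ?_⟩
    rw [h2, hE]

/-- The words related to `10000` (as a list of `8` words). -/
def orbitA : List (Word (4 + 1)) :=
  [kwA, neg kwA, semineg kwA, rev kwA, neg (semineg kwA), neg (rev kwA), semineg (rev kwA),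
    neg (semineg (rev kwA))]

theorem orbitA_closed : ∀ x ∈ orbitA, neg x ∈ orbitA ∧ semineg x ∈ orbitA ∧ rev x ∈ orbitA := by
  decide +kernel

theorem not_related : ¬ Related kwA kwB := by
  intro h
  have h1 : ∀ y, Related kwA y → y ∈ orbitA := by
    intro y hy
    induction hy with
    | refl => simp [orbitA]
    | tail _ h2 ih =>
      have h3 := orbitA_closed _ ih
      rcases h2 with rfl | rfl | rfl
      · exact h3.1
      · exact h3.2.1
      · exact h3.2.2
  exact absurd (h1 _ h) (by decide +kernel)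

/-- The answer to Q1 is negative: for some `m ≥ 1` there are keywords `a`, `b` of length `m + 1` such
that `G_n^{(a)}` and `G_n^{(b)}` are isomorphic for all `n ≥ 1` although `b` is not obtained from `a`
by a finite composition of negation, seminegation and reversal. -/
theorem result : ∃ m : ℕ, 1 ≤ m ∧ ∃ a b : Word (m + 1),
    (∀ n : ℕ, 1 ≤ n → Nonempty (G n a ≃g G n b)) ∧ ¬ Related a b :=
  ⟨4, by norm_num, kwA, kwB, fun n _ => iso n, not_related⟩

end Pool.Agent.Results.MP_53071c_co.KeywordGraphs
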